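import Pool.Agent.Helper27.VF.Goals

/-! Project VF (captain helper27), packet CHN. -/

set_option autoImplicit false

namespace Pool.Agent.Helper12.VF

open Pool.Agent.Helper27.VF

universe u

theorem bdry {W : Type u} {G G₀ : SimpleGraph W} (hle : G₀ ≤ G) (hlf : ∀ x, {y | G₀.Adj x y}.Finite)
    {c : Set W × Set W} (hc : IsCut G c) :
    {x | x ∈ c.1 ∧ ∃ y, y ∉ c.1 ∧ G₀.Adj x y}.Finite := by
  refine (hc.fin.biUnion (t := fun y => {x | G₀.Adj y x}) (fun y _ => hlf y)).subset ?_
  rintro x ⟨hx, y, hy, hxy⟩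
  simp only [Set.mem_iUnion]
  refine ⟨y, ?_, hxy.symm⟩
  rw [mem_sep]
  exact ⟨hy, fun hy2 => hc.no x hx y hy2 (hle hxy)⟩

/-- points of `A` whose images are close -/
def HH (A : Type u) {W : Type u} [Group A] [MulAction A W] (G₀ : SimpleGraph W) (w : W) (D : ℕ) :
    SimpleGraph A := SimpleGraph.fromRel fun a b => G₀.dist (a • w) (b • w) ≤ D

theorem hh_dist {A W : Type u} [Group A] [MulAction A W] {G₀ : SimpleGraph W} {w : W} {D : ℕ}
    (hconn : G₀.Connected) {a b : A} (P : (HH A G₀ w D).Walk a b) :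
    G₀.dist (a • w) (b • w) ≤ P.length * D := by
  induction P with
  | nil => simp
  | @cons a a' b h P ih =>
    have h1 : G₀.dist (a • w) (a' • w) ≤ D := by
      unfold HH at h
      rw [SimpleGraph.fromRel_adj] at h
      rcases h.2 with h2 | h2
      · exact h2
      · rwa [SimpleGraph.dist_comm]
    have h2 := hconn.dist_triangle (u := a • w) (v := a' • w) (w := b • w)
    rw [SimpleGraph.Walk.length_cons, add_mul, one_mul]
    omega

theorem hh_reach {A W : Type u} [Group A] [MulAction A W] {G₀ : SimpleGraph W} {w : W} {R : ℕ}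
    (hconn : G₀.Connected) (hR : ∀ x : W, ∃ a : A, G₀.dist (a • w) x ≤ R) {x y : W}
    (P : G₀.Walk x y) : ∀ a b : A, G₀.dist (a • w) x ≤ R → G₀.dist (b • w) y ≤ R →
      (HH A G₀ w (2 * R + 1)).Reachable a b := by
  have step : ∀ a b : A, G₀.dist (a • w) (b • w) ≤ 2 * R + 1 →
      (HH A G₀ w (2 * R + 1)).Reachable a b := by
    intro a b h
    by_cases hab : a = b
    · subst hab; exact SimpleGraph.Reachable.refl _
    · refine SimpleGraph.Adj.reachable ?_
      unfold HH
      rw [SimpleGraph.fromRel_adj]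
      exact ⟨hab, Or.inl h⟩
  induction P with
  | nil =>
    rename_i x
    intro a b ha hb
    apply step
    have h1 := hconn.dist_triangle (u := a • w) (v := x) (w := b • w)
    rw [SimpleGraph.dist_comm (u := x)] at h1
    omega
  | @cons x x' y h P ih =>
    intro a b ha hb
    obtain ⟨a', ha'⟩ := hR x'
    refine (step a a' ?_).trans (ih a' b ha' hb)
    have h1 := hconn.dist_triangle (u := a • w) (v := x) (w := a' • w)
    have h2 := hconn.dist_triangle (u := x) (v := x') (w := a' • w)
    have h3 : G₀.dist x x' = 1 := SimpleGraph.dist_eq_one_iff_adj.2 h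
    rw [SimpleGraph.dist_comm (u := x')] at h2
    omega

theorem chn (hF : FacStmt.{u}) : ChnStmt.{u} := by
  intro A W _ _ G G₀ w p h k
  obtain ⟨⟨R, hR⟩, -, hU⟩ := hF A W G G₀ w p h
  refine ⟨(k + 1) * (2 * R + 1), ?_⟩
  intro c hc hk a b hab
  have h1 : {g : A | g • w ∈ c.1}.Infinite :=
    hU _ (inn_infinite h hab.1) (bdry h.le h.lf hc)
  have h2 : {g : A | g • w ∈ c.2}.Infinite :=
    hU _ (inn_infinite h hab.2) (bdry h.le h.lf hc.swap)
  obtain ⟨g1, hg1⟩ := h1.nonempty
  obtain ⟨g2, hg2⟩ := h2.nonempty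
  have hreach : ∀ g g' : A, (HH A G₀ w (2 * R + 1)).Reachable g g' := by
    intro g g'
    obtain ⟨P⟩ := h.conn.preconnected (g • w) (g' • w)
    exact hh_reach h.conn hR P g g' (by simp) (by simp)
  classical
  have hex : ∃ n : ℕ, ∃ g g' : A, g • w ∈ c.1 ∧ g' • w ∈ c.2 ∧
      (HH A G₀ w (2 * R + 1)).dist g g' = n := ⟨_, g1, g2, hg1, hg2, rfl⟩
  obtain ⟨g, g', hg, hg', hn⟩ := Nat.find_spec hex
  have hmin : ∀ x y : A, x • w ∈ c.1 → y • w ∈ c.2 →
      Nat.find hex ≤ (HH A G₀ w (2 * R + 1)).dist x y := fun x y hx hy =>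
    Nat.find_min' hex ⟨x, y, hx, hy, rfl⟩
  set n := Nat.find hex with hndef
  obtain ⟨P, hP, hPl⟩ := (hreach g g').exists_path_of_dist
  refine ⟨g, g', hg, hg', ?_⟩
  have hd := hh_dist h.conn P
  have hlen : P.length ≤ k + 1 := by
    have hsep : ∀ i ∈ Finset.Ioo 0 P.length, P.getVert i • w ∈ sep c := by
      intro i hi
      rw [Finset.mem_Ioo] at hi
      rw [mem_sep]
      constructor
      · intro hc1
        have h3 := hmin _ _ hc1 hg'
        have h4 := SimpleGraph.dist_le (P.drop i)
        rw [SimpleGraph.Walk.drop_length] at h4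
        omega
      · intro hc2
        have h3 := hmin _ _ hg hc2
        have h4 := SimpleGraph.dist_le (P.take i)
        rw [SimpleGraph.Walk.take_length] at h4
        omega
    have hinj : Set.InjOn (fun i => P.getVert i • w) (Finset.Ioo 0 P.length : Finset ℕ) := by
      intro i hi j hj hij
      rw [Finset.mem_coe, Finset.mem_Ioo] at hi hj
      have h5 : P.getVert i = P.getVert j := by
        have h6 : ((P.getVert j)⁻¹ * P.getVert i) • w = w := by
          rw [mul_smul]
          show (P.getVert j)⁻¹ • (P.getVert i • w) = w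
          have h7 : P.getVert i • w = P.getVert j • w := hij
          rw [h7, inv_smul_smul]
        have h8 := h.free _ _ h6
        rw [inv_mul_eq_one] at h8
        exact h8.symm
      exact hP.getVert_injOn (by simp; omega) (by simp; omega) h5
    have hcard : (Finset.Ioo 0 P.length).card ≤ (sep c).ncard := by
      rw [← Finset.card_image_of_injOn hinj, ← Set.ncard_coe_finset]
      refine Set.ncard_le_ncard ?_ hc.fin
      intro x hx
      rw [Finset.mem_coe, Finset.mem_image] at hx
      obtain ⟨i, hi, rfl⟩ := hx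
      exact hsep i hi
    rw [Nat.card_Ioo] at hcard
    omega
  exact hd.trans (Nat.mul_le_mul_right _ hlen)

end Pool.Agent.Helper12.VF
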