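import Mathlib

/-! M. Hall's theorem: finitely generated subgroups of free groups are closed in the profinite
topology. -/

set_option autoImplicit false

open scoped Classical

namespace Pool.Agent.Helper12.VF

variable {ι : Type*}

/-- the partial permutation `t ↦ x t` of a finite set of cosets, extended to a permutation -/
noncomputable def pperm {G : Type*} [Group G] {B : Subgroup G} (T : Set (G ⧸ B)) [Finite T] (x : G) :
    Equiv.Perm T :=
  Equiv.extendSubtype (p := fun t : T => x • t.1 ∈ T) (q := fun t : T => x⁻¹ • t.1 ∈ T)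
    { toFun := fun t => ⟨⟨x • t.1.1, t.2⟩, by
        show x⁻¹ • (x • t.1.1) ∈ T
        rw [inv_smul_smul]; exact t.1.2⟩
      invFun := fun t => ⟨⟨x⁻¹ • t.1.1, t.2⟩, by
        show x • (x⁻¹ • t.1.1) ∈ T
        rw [smul_inv_smul]; exact t.1.2⟩
      left_inv := fun t => by ext; simp
      right_inv := fun t => by ext; simp }

theorem pperm_apply {G : Type*} [Group G] {B : Subgroup G} (T : Set (G ⧸ B)) [Finite T] (x : G)
    (t : T) (h : x • t.1 ∈ T) : pperm T x t = ⟨x • t.1, h⟩ := by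
  unfold pperm
  rw [Equiv.extendSubtype_apply_of_mem _ t h]
  rfl

theorem fin_comap {G H : Type*} [Group G] [Group H] (f : G →* H) (L : Subgroup H) [L.FiniteIndex] :
    (L.comap f).FiniteIndex := by
  rw [Subgroup.finiteIndex_iff, Subgroup.index_comap]
  have h : L.IsFiniteRelIndex f.range := Subgroup.isFiniteRelIndex_of_finiteIndex
  exact h.relIndex_ne_zero

theorem hall_free (B : Subgroup (FreeGroup ι)) (hB : B.FG) (g : FreeGroup ι) (hg : g ∉ B) :
    ∃ L : Subgroup (FreeGroup ι), B ≤ L ∧ g ∉ L ∧ L.FiniteIndex := by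
  obtain ⟨S, hS⟩ := hB
  -- the cosets of the suffixes
  let suf : FreeGroup ι → Set (FreeGroup ι ⧸ B) := fun x =>
    {c | ∃ l : List (ι × Bool), l <:+ x.toWord ∧ c = (FreeGroup.mk l : FreeGroup ι)}
  have hsuf : ∀ x, (suf x).Finite := by
    intro x
    have h1 : {l : List (ι × Bool) | l <:+ x.toWord}.Finite := by
      have : {l : List (ι × Bool) | l <:+ x.toWord} ⊆ {l | l ∈ x.toWord.tails} := by
        intro l hl
        exact (List.mem_tails _ _).2 hl
      exact (List.finite_toSet _).subset this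
    refine (h1.image (fun l => ((FreeGroup.mk l : FreeGroup ι) : FreeGroup ι ⧸ B))).subset ?_
    rintro c ⟨l, hl, rfl⟩
    exact ⟨l, hl, rfl⟩
  let T : Set (FreeGroup ι ⧸ B) := (⋃ x ∈ S, suf x) ∪ suf g
  have hT : T.Finite := (S.finite_toSet.biUnion (fun x _ => hsuf x)).union (hsuf g)
  have : Finite T := hT.to_subtype
  have h1T : ((1 : FreeGroup ι) : FreeGroup ι ⧸ B) ∈ T := by
    right
    exact ⟨[], List.nil_suffix, rfl⟩
  let φ : FreeGroup ι →* Equiv.Perm T := FreeGroup.lift (fun i => pperm T (FreeGroup.of i))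
  have hof1 : ∀ i : ι, φ (FreeGroup.mk [(i, true)]) = pperm T (FreeGroup.of i) := fun i =>
    FreeGroup.lift_apply_of
  have hof2 : ∀ i : ι, (FreeGroup.mk [(i, false)] : FreeGroup ι) = (FreeGroup.of i)⁻¹ := fun i => rfl
  have key : ∀ w : List (ι × Bool),
      (∀ l, l <:+ w → ((FreeGroup.mk l : FreeGroup ι) : FreeGroup ι ⧸ B) ∈ T) →
      (φ (FreeGroup.mk w) ⟨_, h1T⟩).1 = ((FreeGroup.mk w : FreeGroup ι) : FreeGroup ι ⧸ B) := by
    intro w
    induction w with
    | nil =>
      intro _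
      have : (FreeGroup.mk ([] : List (ι × Bool))) = 1 := rfl
      rw [this, map_one]
      rfl
    | cons a w ih =>
      intro hw
      have hw' : ∀ l, l <:+ w → ((FreeGroup.mk l : FreeGroup ι) : FreeGroup ι ⧸ B) ∈ T :=
        fun l hl => hw l (hl.trans (List.suffix_cons _ _))
      have hmid := hw' w List.suffix_rfl
      have h := hw (a :: w) List.suffix_rfl
      have hcons : (FreeGroup.mk (a :: w) : FreeGroup ι) = FreeGroup.mk [a] * FreeGroup.mk w := by
        rw [FreeGroup.mul_mk]; rfl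
      have ih' : φ (FreeGroup.mk w) ⟨_, h1T⟩ = ⟨_, hmid⟩ := Subtype.ext (ih hw')
      rw [hcons] at h ⊢
      rw [map_mul, Equiv.Perm.mul_apply, ih']
      obtain ⟨i, b⟩ := a
      cases b with
      | true =>
        rw [hof1]
        have h' : FreeGroup.of i • ((FreeGroup.mk w : FreeGroup ι) : FreeGroup ι ⧸ B) ∈ T := h
        rw [pperm_apply T _ _ h']
        rfl
      | false =>
        have e1 : FreeGroup.of i • ((FreeGroup.mk [(i, false)] * FreeGroup.mk w : FreeGroup ι) :
            FreeGroup ι ⧸ B) = ((FreeGroup.mk w : FreeGroup ι) : FreeGroup ι ⧸ B) := by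
          show ((FreeGroup.of i * (FreeGroup.mk [(i, false)] * FreeGroup.mk w) : FreeGroup ι) :
              FreeGroup ι ⧸ B) = _
          rw [hof2, mul_inv_cancel_left]
        have h' : (FreeGroup.of i) • ((FreeGroup.mk [(i, false)] * FreeGroup.mk w : FreeGroup ι) :
            FreeGroup ι ⧸ B) ∈ T := by rw [e1]; exact hmid
        have h2 := pperm_apply T (FreeGroup.of i) ⟨_, h⟩ h'
        have h3 : (⟨_, h'⟩ : T) = ⟨_, hmid⟩ := Subtype.ext e1
        have h4 : (φ (FreeGroup.mk [(i, false)])) = (pperm T (FreeGroup.of i))⁻¹ := by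
          rw [hof2, map_inv]
          exact congrArg _ (hof1 i)
        have h5 : (φ (FreeGroup.mk [(i, false)])) ⟨_, hmid⟩ = ⟨_, h⟩ := by
          rw [h4, ← h3, ← h2]
          exact Equiv.symm_apply_apply _ _
        exact congrArg Subtype.val h5
  have hall : ∀ x : FreeGroup ι, (x ∈ S ∨ x = g) →
      (φ x ⟨_, h1T⟩).1 = ((x : FreeGroup ι) : FreeGroup ι ⧸ B) := by
    intro x hx
    have hx1 : ∀ l, l <:+ x.toWord → ((FreeGroup.mk l : FreeGroup ι) : FreeGroup ι ⧸ B) ∈ T := by
      intro l hl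
      rcases hx with hx | hx
      · left
        simp only [Set.mem_iUnion]
        exact ⟨x, hx, l, hl, rfl⟩
      · right
        subst hx
        exact ⟨l, hl, rfl⟩
    have := key x.toWord hx1
    rwa [FreeGroup.mk_toWord] at this
  refine ⟨(MulAction.stabilizer (Equiv.Perm T) (⟨_, h1T⟩ : T)).comap φ, ?_, ?_, ?_⟩
  · refine hS.symm.le.trans ((Subgroup.closure_le _).2 ?_)
    intro x hx
    have hxB : x ∈ B := hS.le (Subgroup.subset_closure hx)
    show φ x • (⟨_, h1T⟩ : T) = ⟨_, h1T⟩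
    refine Subtype.ext ((hall x (Or.inl hx)).trans ?_)
    show ((x : FreeGroup ι) : FreeGroup ι ⧸ B) = ((1 : FreeGroup ι) : FreeGroup ι ⧸ B)
    rw [QuotientGroup.eq]
    simpa using hxB
  · intro hmem'
    have h1 : φ g • (⟨_, h1T⟩ : T) = ⟨_, h1T⟩ := hmem'
    have h2 := hall g (Or.inr rfl)
    have h5 : ((g : FreeGroup ι) : FreeGroup ι ⧸ B) = ((1 : FreeGroup ι) : FreeGroup ι ⧸ B) :=
      h2.symm.trans (congrArg Subtype.val h1)
    rw [QuotientGroup.eq] at h5
    apply hg
    have := B.inv_mem h5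
    simpa using this
  · exact fin_comap _ _

/-- M. Hall's theorem -/
theorem hall {A : Type*} [Group A] [IsFreeGroup A] (B : Subgroup A) (hB : B.FG) (g : A)
    (hg : g ∉ B) : ∃ L : Subgroup A, B ≤ L ∧ g ∉ L ∧ L.FiniteIndex := by
  let e := IsFreeGroup.toFreeGroup A
  have hB' : (B.map e.toMonoidHom).FG := by
    obtain ⟨S, hS⟩ := hB
    refine ⟨S.image e, ?_⟩
    rw [← hS, MonoidHom.map_closure]
    congr 1
    simp
  obtain ⟨L, h1, h2, h3⟩ := hall_free (B.map e.toMonoidHom) hB' (e g) (by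
    rintro ⟨b, hb, hbg⟩
    exact hg (e.injective hbg ▸ hb))
  exact ⟨L.comap e.toMonoidHom, Subgroup.map_le_iff_le_comap.1 h1, h2, fin_comap _ _⟩

end Pool.Agent.Helper12.VF
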