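import Mathlib
import Pool.Agent.Helper96.VF.Goals

/-!
# Project VF (MP_6829b3_nt), packet ROW: structure of a V-free set
-/

set_option autoImplicit false

namespace Pool.Agent.Helper12.VF

open Pool.Agent.Helper96.VF Finset

theorem row_le_two {S : Finset (ℕ × ℕ)} (hS : VFree S) (b : ℕ) :
    (S.filter (fun u => u.2 = b)).card ≤ 2 := by
  by_contra hcon
  have h3 : 3 ≤ (S.filter (fun u => u.2 = b)).card := by omega
  have hne : (S.filter (fun u => u.2 = b)).Nonempty := by
    rw [← Finset.card_pos]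
    omega
  obtain ⟨u, hu, hmin⟩ := Finset.exists_min_image (S.filter (fun u => u.2 = b)) Prod.fst hne
  have hcard : 2 ≤ ((S.filter (fun u => u.2 = b)).erase u).card := by
    rw [Finset.card_erase_of_mem hu]
    omega
  obtain ⟨v, hv, w, hw, hvw⟩ := Finset.one_lt_card.1 (lt_of_lt_of_le (by norm_num : 1 < 2) hcard)
  rw [Finset.mem_erase] at hv hw
  have hle : ∀ z ∈ S.filter (fun u => u.2 = b), u ≤ z := by
    intro z hz
    have h1 := hmin z hz
    rw [Finset.mem_filter] at hz hu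
    exact ⟨h1, by rw [hu.2, hz.2]⟩
  exact hS u (Finset.mem_filter.1 hu).1 v (Finset.mem_filter.1 hv.2).1 w
    (Finset.mem_filter.1 hw.2).1 (Ne.symm hv.1) (Ne.symm hw.1) hvw ⟨hle v hv.2, hle w hw.2⟩

theorem gROW : ROW := by
  intro S hS
  set D : Finset ℕ := (S.image Prod.snd).filter (fun b => 2 ≤ (S.filter (fun u => u.2 = b)).card)
    with hD
  have hex : ∀ b : ℕ, ∃ l h : ℕ, b ∈ D → (l, b) ∈ S ∧ (h, b) ∈ S ∧ l < h := by
    intro b
    by_cases hb : b ∈ D
    · rw [hD, Finset.mem_filter] at hb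
      obtain ⟨v, hv, w, hw, hvw⟩ := Finset.one_lt_card.1 (lt_of_lt_of_le (by norm_num : 1 < 2) hb.2)
      rw [Finset.mem_filter] at hv hw
      obtain ⟨v1, v2⟩ := v
      obtain ⟨w1, w2⟩ := w
      simp only at hv hw
      obtain ⟨hv, rfl⟩ := hv
      obtain ⟨hw, rfl⟩ := hw
      have hne : v1 ≠ w1 := fun h => hvw (by rw [h])
      rcases lt_or_gt_of_ne hne with h | h
      · exact ⟨v1, w1, fun _ => ⟨hv, hw, h⟩⟩
      · exact ⟨w1, v1, fun _ => ⟨hw, hv, h⟩⟩
    · exact ⟨0, 0, fun h => absurd h hb⟩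
  choose lo hi hlh using hex
  refine ⟨D, lo, hi, hlh, ?_, ?_, ?_⟩
  · intro b hb b' hb' hlt
    by_contra hcon
    obtain ⟨h1, h2, h3⟩ := hlh b hb
    obtain ⟨h1', h2', h3'⟩ := hlh b' hb'
    refine hS (lo b, b) h1 (hi b, b) h2 (hi b', b') h2' ?_ ?_ ?_ ⟨⟨h3.le, le_rfl⟩, ⟨?_, hlt.le⟩⟩
    · intro h
      exact h3.ne (congrArg Prod.fst h)
    · intro h
      exact hlt.ne (congrArg Prod.snd h)
    · intro h
      exact hlt.ne (congrArg Prod.snd h)
    · exact not_lt.1 hcon
  · intro a a' b hb ha ha'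
    by_contra hne
    apply hb
    rw [hD, Finset.mem_filter]
    refine ⟨Finset.mem_image.2 ⟨(a, b), ha, rfl⟩, ?_⟩
    refine Finset.one_lt_card.2 ⟨(a, b), Finset.mem_filter.2 ⟨ha, rfl⟩, (a', b),
      Finset.mem_filter.2 ⟨ha', rfl⟩, ?_⟩
    intro h
    exact hne (congrArg Prod.fst h)
  · rw [Finset.card_eq_sum_card_image Prod.snd S]
    have h1 : ∀ b ∈ S.image Prod.snd, (S.filter (fun u => u.2 = b)).card
        = 1 + if 2 ≤ (S.filter (fun u => u.2 = b)).card then 1 else 0 := by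
      intro b hb
      have h2 := row_le_two hS b
      have h3 : 0 < (S.filter (fun u => u.2 = b)).card := by
        rw [Finset.card_pos]
        obtain ⟨u, hu, hub⟩ := Finset.mem_image.1 hb
        exact ⟨u, Finset.mem_filter.2 ⟨hu, hub⟩⟩
      split_ifs with h
      · omega
      · omega
    rw [Finset.sum_congr rfl h1, Finset.sum_add_distrib, Finset.sum_const, smul_eq_mul, mul_one,
      hD, Finset.card_filter]

end Pool.Agent.Helper12.VF
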